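import Pool.Agent.Helper35.SHR.Sheet

/-!
# SHR, row SEM2: meaning of RT
-/

namespace SHR
open SHQ

namespace Sem2

theorem th_cases : ∀ a b : Fin 3, a ≠ b →
    (th a b + 1 = a ∧ th a b + 2 = b) ∨ (th a b + 1 = b ∧ th a b + 2 = a) := by decide

theorem lt_ne : ∀ (p g : Fin 3) (t : Bool), g ≠ p → p ≠ lt (th p g) g t := by decide

theorem nd_lang {a b : Fin 3} (hab : a ≠ b) {X Y : Tr} {d : W} (hd : d ∈ (nd a b X Y).lang) :
    (∃ u ∈ X.lang, d = a :: u) ∨ (∃ u ∈ Y.lang, d = b :: u) := by
  have hba : b ≠ a := Ne.symm hab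
  rcases th_cases a b hab with ⟨h1, h2⟩ | ⟨h1, h2⟩
  · simp only [nd, h1, h2, if_true, if_neg hba, Tr.lang] at hd
    rcases hd with ⟨u, hu, rfl⟩ | ⟨u, hu, rfl⟩
    · exact Or.inl ⟨u, hu, rfl⟩
    · exact Or.inr ⟨u, hu, rfl⟩
  · simp only [nd, h1, h2, if_true, if_neg hba, Tr.lang] at hd
    rcases hd with ⟨u, hu, rfl⟩ | ⟨u, hu, rfl⟩
    · exact Or.inr ⟨u, hu, rfl⟩
    · exact Or.inl ⟨u, hu, rfl⟩

/-- all letters of a word go to the second copy -/
theorem right_all (h1 : ST_SHF) (w : W) {x a d : W} (h : Shf x a d) :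
    Shf (w ++ x) a (w ++ d) := by
  have := h1.2.1 w [] w x a d (h1.1 _ _ _ (h1.2.2.1 w)) h
  simpa using this

theorem greedy (h1 : ST_SHF) (p g : Fin 3) (y : List Bool) {v : W} {n : ℕ}
    (hv : Shf (y.map (lt p (th p g))) (List.replicate n p) v) :
    ∀ ys : List (List Bool), Shf (rw p g ys y) (List.replicate (ys.length + 1 + n) p)
      (ys.flatten.map (lt (th p g) g) ++ v) := by
  intro ys
  induction ys with
  | nil =>
    have : List.replicate (([] : List (List Bool)).length + 1 + n) p = p :: List.replicate n p := by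
      rw [List.length_nil, zero_add, add_comm, List.replicate_succ]
    rw [this]
    exact Shf.left p hv
  | cons y1 ys ih =>
    have : List.replicate ((y1 :: ys).length + 1 + n) p =
        p :: List.replicate (ys.length + 1 + n) p := by
      rw [List.length_cons, ← List.replicate_succ]
      congr 1
      omega
    rw [this, List.flatten_cons, List.map_append, List.append_assoc]
    exact Shf.left p (right_all h1 _ ih)

end Sem2

open Sem2 in
theorem st_SEM2 (h1 : ST_SHF) (h2 : ST_SEM) (h3 : ST_LNG) : ST_SEM2 := by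
  intro p g hgp ys y
  obtain ⟨happ, -, -, hfix, -⟩ := h3
  induction ys with
  | nil =>
    intro d hd
    exact (h2 p g hgp y).1 d (by simpa only [RT] using hd)
  | cons y1 ys ih =>
    cases y1 with
    | nil =>
      intro d hd
      have hd' : d ∈ (RT p g ys y).lang := by simpa only [RT] using hd
      exact Shf.left p (ih d hd')
    | cons t y' =>
      intro d hd
      by_cases hy : true ∈ y
      · simp only [RT, if_pos hy] at hd
        rcases nd_lang (lt_ne p g t hgp) hd with ⟨u, hu, rfl⟩ | ⟨u, hu, rfl⟩
        · rw [happ] at hu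
          obtain ⟨w, hw, v, hv, rfl⟩ := hu
          rw [hfix, Set.mem_singleton_iff] at hw
          subst hw
          have h4 := (h2 p g hgp y).2 hy v hv
          have h5 := greedy h1 p g y (n := 1) h4 ys
          have h6 := right_all h1 ((t :: y').map (lt (th p g) g)) h5
          have h7 := Shf.right p h6
          rw [List.flatten_cons, List.map_append, List.append_assoc]
          exact h7
        · rw [happ] at hu
          obtain ⟨w, hw, v, hv, rfl⟩ := hu
          rw [hfix, Set.mem_singleton_iff] at hw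
          subst hw
          exact Shf.left p (right_all h1 ((t :: y').map (lt (th p g) g)) (ih v hv))
      · simp only [RT, if_neg hy] at hd
        rw [hfix, Set.mem_singleton_iff] at hd
        subst hd
        exact greedy h1 p g y (n := 0) (h1.1 _ _ _ (h1.2.2.1 _)) ((t :: y') :: ys)

end SHR
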