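import Pool.Agent.Helper35.SHR.Sheet2

/-!
# SHR, row V3E: the recursions of the run sums
-/

namespace SHR
open SHQ
open scoped ENNReal

namespace V3e

theorem TSum_mul (c : ℝ≥0∞) : ∀ (k : ℕ) (φ : List (List Bool) → ℝ≥0∞),
    TSum k (fun ys => c * φ ys) = c * TSum k φ := by
  intro k
  induction k with
  | zero => intro φ; rfl
  | succ k ih =>
    intro φ
    simp only [TSum]
    rw [← ENNReal.tsum_mul_left]
    exact tsum_congr fun y => ih fun ys => φ (y :: ys)

theorem TSum_add : ∀ (k : ℕ) (φ ψ : List (List Bool) → ℝ≥0∞),
    TSum k (fun ys => φ ys + ψ ys) = TSum k φ + TSum k ψ := by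
  intro k
  induction k with
  | zero => intro φ ψ; rfl
  | succ k ih =>
    intro φ ψ
    simp only [TSum]
    rw [← ENNReal.tsum_add]
    exact tsum_congr fun y => ih (fun ys => φ (y :: ys)) fun ys => ψ (y :: ys)

theorem ValC_TSum (h : ST_VAL) {n : ℕ} (o : Om) (s : St n) (T : Tr) :
    ∀ (k : ℕ) (φ : List (List Bool) → St n → ℝ≥0∞),
    ValC o s T (fun s' => TSum k fun ys => φ ys s') = TSum k fun ys => ValC o s T (φ ys) := by
  intro k
  induction k with
  | zero => intro φ; rfl
  | succ k ih =>
    intro φ
    simp only [TSum]
    rw [(h n o).2.1 s T (List Bool) fun y s' => TSum k fun ys => φ (y :: ys) s']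
    exact tsum_congr fun y => ih fun ys => φ (y :: ys)

theorem ValC_zero (h : ST_VAL) {n : ℕ} (o : Om) (s : St n) (T : Tr) :
    ValC o s T (fun _ => 0) = 0 := by
  have := (h n o).2.2.1 s T 0 fun _ => 0
  simpa using this

theorem shift (h : ST_VAL) {n : ℕ} (z : ℝ≥0∞) (o : Om) (f : St n → ℝ≥0∞) (k m : ℕ)
    (P : List Bool → Prop) [DecidablePred P] (G : List (List Bool) → List Bool → Tr) (T : Tr)
    (s : St n) :
    z ^ m * ValC o s T (fun s' => TSum k fun ys => ∑' y : List Bool, if P y then
      z ^ (ys.flatten.length + k + y.length) * ValC o s' (G ys y) f else 0) =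
    TSum k fun ys => ∑' y : List Bool, if P y then
      z ^ (m + (ys.flatten.length + k + y.length)) * ValC o s (T.app (G ys y)) f else 0 := by
  rw [ValC_TSum h o s T k fun ys s' => ∑' y : List Bool, if P y then
      z ^ (ys.flatten.length + k + y.length) * ValC o s' (G ys y) f else 0, ← TSum_mul]
  congr 1
  funext ys
  rw [(h n o).2.1 s T (List Bool) fun y s' => if P y then
      z ^ (ys.flatten.length + k + y.length) * ValC o s' (G ys y) f else 0,
    ← ENNReal.tsum_mul_left]
  refine tsum_congr fun y => ?_
  split_ifs with hP
  · rw [(h n o).2.2.1 s T (z ^ (ys.flatten.length + k + y.length)) fun s' =>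
      ValC o s' (G ys y) f, (h n o).1, pow_add z m]
    ring
  · rw [ValC_zero h, mul_zero]

theorem fix_append (a b : W) : fix (a ++ b) = (fix a).app (fix b) := by
  induction a with
  | nil => rfl
  | cons x a ih => simp only [List.cons_append, fix, Tr.app, ih]

theorem app_assoc (T S R : Tr) : (T.app S).app R = T.app (S.app R) := by
  induction T with
  | nil => rfl
  | one a T ih => simp only [Tr.app, ih]
  | two c T T' ih ih' => simp only [Tr.app, ih, ih']

theorem D2_fix (p g : Fin 3) : ∀ y : List Bool, true ∉ y →
    (D2 p g y).1 = fix (y.map (lt p (th p g))) := by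
  intro y hy
  cases y with
  | nil => rfl
  | cons t y =>
    cases t with
    | true => exact absurd List.mem_cons_self hy
    | false =>
      have hy' : true ∉ y := fun hc => hy (List.mem_cons_of_mem _ hc)
      simp only [D2, if_neg hy', List.map_cons, fix, lt]
      rfl

theorem RT_fix (p g : Fin 3) (y : List Bool) (hy : true ∉ y) : ∀ ys : List (List Bool),
    RT p g ys y = fix (ys.flatten.map (lt (th p g) g) ++ y.map (lt p (th p g))) := by
  intro ys
  induction ys with
  | nil => simp only [RT, List.flatten_nil, List.map_nil, List.nil_append]; exact D2_fix p g y hy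
  | cons y1 ys ih =>
    cases y1 with
    | nil => simp only [RT, List.flatten_cons, List.nil_append]; exact ih
    | cons t y' => simp only [RT, if_neg hy]

theorem lt_ne' : ∀ (p g : Fin 3) (t : Bool), g ≠ p → p ≠ lt (th p g) g t := by decide

end V3e

open V3e in
theorem st_V3E (h : ST_VAL) : ST_V3E := by
  intro n z o p g f hgp
  refine ⟨fun s => ⟨?_, ?_, ?_⟩, fun k s => ⟨?_, ?_, ?_⟩, fun k s => ?_⟩
  · simp only [EN3, E5, TSum, List.flatten_nil, List.length_nil, List.map_nil, fix, Tr.app,
      zero_add]
  · simp only [ZN3, H5, TSum, List.flatten_nil, List.length_nil, List.map_nil, List.nil_append,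
      zero_add]
  · simp only [MP3, A5, TSum, List.flatten_nil, List.length_nil, RT, zero_add]
  · simp only [SB]
    rw [← ENNReal.tsum_mul_left]
    simp only [EN3, TSum]
    refine tsum_congr fun y1 => ?_
    rw [← mul_assoc, ← pow_succ']
    refine Eq.trans ?_ (shift h z o f k (y1.length + 1) (fun y => true ∈ y)
      (fun ys y => (fix (ys.flatten.map (lt (th p g) g))).app (D2 p g y).2)
      (fix (y1.map (lt (th p g) g))) s).symm
    congr 1
    funext ys
    refine tsum_congr fun y => ?_
    rw [List.flatten_cons, List.map_append, fix_append, app_assoc, List.length_append]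
    congr 3
    ring
  · simp only [SB]
    rw [← ENNReal.tsum_mul_left]
    simp only [ZN3, TSum]
    refine tsum_congr fun y1 => ?_
    rw [← mul_assoc, ← pow_succ']
    have := shift h z o f k (y1.length + 1) (fun y => ¬ true ∈ y)
      (fun ys y => fix (ys.flatten.map (lt (th p g) g) ++ y.map (lt p (th p g))))
      (fix (y1.map (lt (th p g) g))) s
    simp only [ite_not] at this
    refine Eq.trans ?_ this.symm
    congr 1
    funext ys
    refine tsum_congr fun y => ?_
    rw [List.flatten_cons, List.map_append, List.append_assoc, fix_append (List.map _ y1),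
      List.length_append]
    congr 3
    ring
  · have hsplit := (h n o).2.2.2.2 fun y1 => TSum k fun ys => ∑' y : List Bool, if true ∈ y then
      z ^ ((y1 :: ys).flatten.length + (k + 1) + y.length) * ValC o s (RT p g (y1 :: ys) y) f
      else 0
    have hMP : MP3 z o p g f (k + 1) s = ∑' y1, TSum k fun ys => ∑' y : List Bool,
      if true ∈ y then
      z ^ ((y1 :: ys).flatten.length + (k + 1) + y.length) * ValC o s (RT p g (y1 :: ys) y) f
      else 0 := rfl
    rw [hMP, hsplit]
    have e0 : (TSum k fun ys => ∑' y : List Bool, if true ∈ y then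
        z ^ (([] :: ys).flatten.length + (k + 1) + y.length) * ValC o s (RT p g ([] :: ys) y) f
        else 0) = z * MP3 z o p g f k s := by
      unfold MP3
      rw [← TSum_mul]
      congr 1
      funext ys
      rw [← ENNReal.tsum_mul_left]
      refine tsum_congr fun y => ?_
      split_ifs
      · have : ([] :: ys).flatten.length + (k + 1) + y.length =
            1 + (ys.flatten.length + k + y.length) := by
          rw [List.flatten_cons, List.nil_append]; ring
        rw [this, pow_add, pow_one, mul_assoc]
        simp only [RT]
      · rw [mul_zero]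
    have e1 : ∀ t : Bool, ∑' y', (TSum k fun ys => ∑' y : List Bool, if true ∈ y then
        z ^ (((t :: y') :: ys).flatten.length + (k + 1) + y.length) *
          ValC o s (RT p g ((t :: y') :: ys) y) f else 0) =
        z * (z * (kp o s * (wt o ((p, 0) : St n) (lt (th p g) g t) *
          SB z o (th p g) g (EN3 z o p g f k) (nx (p, 0) (lt (th p g) g t)) +
          SB z o (th p g) g (MP3 z o p g f k) (lt (th p g) g t, 0)))) := by
      intro t
      set a := lt (th p g) g t with ha
      have hpa : p ≠ a := lt_ne' p g t hgp
      unfold SB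
      rw [← ENNReal.tsum_mul_left, ← ENNReal.tsum_add, ← ENNReal.tsum_mul_left,
        ← ENNReal.tsum_mul_left, ← ENNReal.tsum_mul_left]
      refine tsum_congr fun y' => ?_
      have f1 := shift h z o f k y'.length (fun y => true ∈ y)
        (fun ys y => (fix (ys.flatten.map (lt (th p g) g))).app (D2 p g y).2)
        (fix (y'.map (lt (th p g) g))) (nx (p, 0) a)
      have f2 := shift h z o f k y'.length (fun y => true ∈ y) (fun ys y => RT p g ys y)
        (fix (y'.map (lt (th p g) g))) (a, 0)
      have f1' : z ^ y'.length * ValC o (nx ((p, 0) : St n) a) (fix (y'.map (lt (th p g) g)))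
          (EN3 z o p g f k) = _ := f1
      have f2' : z ^ y'.length * ValC o ((a, 0) : St n) (fix (y'.map (lt (th p g) g)))
          (MP3 z o p g f k) = _ := f2
      rw [f1', f2', ← TSum_mul, ← TSum_add, ← TSum_mul, ← TSum_mul, ← TSum_mul]
      congr 1
      funext ys
      rw [← ENNReal.tsum_mul_left, ← ENNReal.tsum_add, ← ENNReal.tsum_mul_left,
        ← ENNReal.tsum_mul_left, ← ENNReal.tsum_mul_left]
      refine tsum_congr fun y => ?_
      split_ifs with hy
      · have g1 : RT p g ((t :: y') :: ys) y = nd p a
            ((fix (((t :: y') :: ys).flatten.map (lt (th p g) g))).app (D2 p g y).2)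
            ((fix (y'.map (lt (th p g) g))).app (RT p g ys y)) := by
          simp only [RT, if_pos hy]
          rfl
        have g2 : (fix (((t :: y') :: ys).flatten.map (lt (th p g) g))).app (D2 p g y).2 =
            .one a ((fix (y'.map (lt (th p g) g))).app
              ((fix (ys.flatten.map (lt (th p g) g))).app (D2 p g y).2)) := by
          rw [List.flatten_cons, List.map_append, fix_append, app_assoc, List.map_cons]
          rfl
        have g3 : ((t :: y') :: ys).flatten.length + (k + 1) + y.length =
            1 + (1 + (y'.length + (ys.flatten.length + k + y.length))) := by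
          rw [List.flatten_cons, List.length_append, List.length_cons]; ring
        rw [g1, (h n o).2.2.2.1 s p a _ _ f hpa, g2, g3, pow_add z 1, pow_add z 1, pow_one]
        have g4 : ∀ T : Tr, ValC o ((p, 0) : St n) (.one a T) f =
            wt o ((p, 0) : St n) a * ValC o (nx ((p, 0) : St n) a) T f := fun T => rfl
        rw [g4]
        ring
      · simp
    rw [e0, e1 true, e1 false]
    have l1 : lt (th p g) g true = th p g := rfl
    have l2 : lt (th p g) g false = g := rfl
    rw [l1, l2]
    ring
  · unfold MP3 ZN3
    rw [← TSum_add, ← TSum_mul]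
    congr 1
    funext ys
    rw [← ENNReal.tsum_add, ← ENNReal.tsum_mul_left]
    refine tsum_congr fun y => ?_
    split_ifs with hy
    · rw [add_zero, pow_succ]
      ring
    · rw [zero_add, pow_succ, RT_fix p g y hy ys]
      ring

end SHR
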